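import Pool.Agent.N24.RW.All
import Pool.Agent.N763.RO.Torus
import Pool.Agent.U569.APL.Fam

/-!
# MP_c95b3b_ag: Zilber's conjecture for the members of families of subvarieties of tori at parameters formed from
# arbitrary sets

The families are those of the starting theorems `ManyParameters` and `RandomOrbits`: `F` is a finite system of polynomials
in the coordinates `x ∈ (ℂˣ)^k` and in auxiliary coordinates `y ∈ ℂ^N`, with coefficients `c q β` in `ℤ[t_0; t_1, …, t_s]`,
and `X_t` is the set of the `x` for which some `(x, y)` is a solution (`solT`). Each coefficient has a well-defined order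
along each of the hypersurfaces `h_1, …, h_M` of the space of the parameters (`HasOrd`), and the tropicalizations of the
family along the `h_l` exclude all linear subspaces of dimension less than `k - m` (`GenericT`). Here the `h_l` are of
degree one in `t_0`. `NoAtypicalT f K m X` says that `X` has no atypical intersection with the cosets of algebraic subgroups
of the torus by the points whose coordinates are units integral over `ℤ[Γ]`.

Let a sequence (`j = 0, 1, 2, …`) of families of vectors in `ℤ ^ ι`, `|ι| = r`, be given. The vectors of the `j`-th family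
are `c₀ + y`, `c₀` an arbitrary integral vector (depending on `j`, of any size) and `y` one of the following vectors
(represented by `0, …, q - 1`):

* `y` in any family of vectors modulo some `q` (depending on `j`), whose nontrivial Fourier coefficients are at most
  `1 / (Z (42 + 3 log q) ^ r)`, where `Z → ∞`, `Z ≤ q`;
* `β(x, z) + u(x) + w(z)` modulo a prime `P → ∞`, where `β : k ^ a × k ^ b → k ^ r` is bilinear, the nontrivial
  combinations of its coordinates have rank at least `ρ`, `x` and `z` are in ARBITRARY sets `E` and `F` with
  `|E| |F| ≥ P ^ (a + b - ρ + δ)`, `u` and `w` are arbitrary functions (for `δ > 0` fixed);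
* the same for `β(x, z) = x z`, `x` and `z` in ARBITRARY subsets of the field of `P ^ r` elements,
  `|E| |F| ≥ P ^ (r + δ)`;
* polynomials in `k` variables of degree at most `P ^ (δ / 4)`, all nontrivial combinations of which have a monomial with
  at least two variables, plus arbitrary functions of the single variables, on products of `k` ARBITRARY sets of at
  least `P ^ (1 / 2 + δ)` residues;
* polynomials in one variable of degree at most `P ^ (δ / 4)`, no nontrivial combination of which is constant, on any
  subgroup of the multiplicative group modulo `P` with at least `P ^ (1 / 2 + δ)` elements.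

**Theorem.** There are exceptions `E j`, `|E j| = o(size)`, such that for ALL families `F` as above, with `1 + s ≤ r`
parameters (any `1 + s` different coordinates), of subvarieties of tori of any dimension, all `K` and `Γ`: for large `j`
all the members whose parameters are the coordinates of a vector of the `j`-th family outside of `E j` have no atypical
intersections.

New: the families of the parameters. The local criterion and the pronull sets are those of the starting library
`N763.RO`; such sets contain few members of the families by the theorem of the starting library `N384.VF` on vectors of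
residues; the estimates of the Fourier coefficients on arbitrary sets are in `U569/APL`.
-/

set_option autoImplicit false

namespace Pool.Agent.Results.MP_c95b3b_ag.ArbitrarySets

open Pool.Agent.R424.MP Pool.Agent.N763.RO Filter
open Pool.Agent.N24.RW (clo crit)
open Pool.Agent.U569.APL

/-- one small set of exceptions for all pairs of coprime polynomials -/
theorem engine_flat {ι : Type} [Fintype ι] [DecidableEq ι] {τ : ℕ → Type} {s : ∀ j, Finset (τ j)}
    {v : ∀ j, τ j → ι → ℤ} (hs : FlatFamilies s v) : ∃ E : ∀ j, Finset (τ j), Small s E ∧
      ∀ (d : Dat ι) (D : ℕ), Outside s E v fun c => (fun i => c (d.j i)) ∉ Bad d.h d.G D := by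
  obtain ⟨E, hE, h⟩ := flat_diag hs (fun x : Dat ι × ℕ => {c : ι → ℤ | (fun i => c (x.1.j i)) ∈ Bad x.1.h x.1.G x.2})
    (fun x => (clo (Fin (x.1.s + 1))).2.2.2.2 ι x.1.j x.1.j.injective _
      (bad_null crit clo x.1.h x.1.G x.1.deg x.1.cop x.2))
  exact ⟨E, hE, fun d D => h (d, D)⟩

/-- **Zilber's conjecture for families of subvarieties of tori at parameters formed from arbitrary sets.** -/
theorem result (ι : Type) [Fintype ι] :
    (∀ (τ : ℕ → Type) (S : ∀ j, Finset (τ j)) (v : ∀ j, τ j → ι → ℤ), FlatFamilies S v →
      ∃ E : ∀ j, Finset (τ j), Small S E ∧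
      ∀ (s k N m M : ℕ) (j : Fin (s + 1) → ι), Function.Injective j →
      ∀ (κ : Type) [Finite κ] (supp : κ → Finset ((Fin k ⊕ Fin N) →₀ ℕ))
        (c : κ → ((Fin k ⊕ Fin N) →₀ ℕ) → Polynomial (MvPolynomial (Fin s) ℤ))
        (h : Fin M → Polynomial (MvPolynomial (Fin s) ℤ)), (∀ l, (h l).natDegree = 1) →
      ∀ (e : Fin M → κ → ((Fin k ⊕ Fin N) →₀ ℕ) → ℕ),
        (∀ l q, ∀ β ∈ supp q, HasOrd (h l) (c q β) (e l q β)) → GenericT m supp e →
      ∀ (K : Subfield ℂ) [Countable K] (Γ : Finset ℂ), (∀ γ ∈ Γ, IsAlgebraic ℚ γ) →
        (∀ γ ∈ Γ, γ ∈ K) →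
        Outside S E v fun x => NoAtypicalT (algebraMap (Algebra.adjoin ℤ (Γ : Set ℂ)) ℂ) K m
          (solT supp (fun q β => ((ev (x (j 0)) (fun i => x (j i.succ)) (c q β) : ℤ) : ℂ)))) ∧
    Examples ι := by
  classical
  refine ⟨fun τ S v hS => ?_, examples _⟩
  obtain ⟨E, hE, hfin⟩ := engine_flat hS
  refine ⟨E, hE, ?_⟩
  intro s k N m M j hj κ _ supp c h hdeg e he hgen K _ Γ hΓ hΓK
  obtain ⟨G, hG, hloc⟩ := localT supp c h e he hgen
  obtain ⟨P₀, hP₀⟩ := hloc K Γ hΓ hΓK
  have h1 : ∀ᶠ i in atTop, ∀ l : Fin M, ∀ t ∈ S i, t ∉ E i → (fun a => v i t (j a)) ∉ Bad (h l) (G l) P₀ :=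
    eventually_all.2 fun l =>
      hfin { s := s, j := ⟨j, hj⟩, h := h l, G := G l, deg := hdeg l, cop := hG l } P₀
  filter_upwards [h1] with i hi t ht htE
  exact hP₀ (v i t (j 0), fun a => v i t (j a.succ)) (hit_of h G P₀ (fun a => v i t (j a)) fun l => hi l t ht htE)

end Pool.Agent.Results.MP_c95b3b_ag.ArbitrarySets
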