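import Pool.Agent.Results.MP_c95b3b_ag.RandomOrbits
import Pool.Agent.U125.NO.Seq

/-!
# MP_c95b3b_ag: Zilber's conjecture for the members of families of subvarieties of tori along normal orbits of
parameters

The families are those of the starting theorem `ManyParameters`: `F` is a finite system of polynomials in
the coordinates `x ∈ (ℂˣ)^k` and in auxiliary coordinates `y ∈ ℂ^N`, with coefficients `c q β` in
`ℤ[t_0; t_1, …, t_s]`, and `X_t` is the set of the `x` for which some `(x, y)` is a solution (`solT`).
Each coefficient has a well-defined order along each of the hypersurfaces `h_1, …, h_M` of the space of the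
parameters (`HasOrd`), and the tropicalizations of the family along the `h_l` exclude all linear subspaces
of dimension less than `k - m` (`GenericT`). Here the `h_l` are of degree one in `t_0`. `NoAtypicalT f K m X`
says that `X` has no atypical intersection with the cosets of algebraic subgroups of the torus by the points
whose coordinates are units integral over `ℤ[Γ]`.

**Theorem.** Let `x_0, x_1, …` be ANY normal orbit of integral vectors (`NormalOrbit`). There is ONE set `E` of
density zero such that for ALL families as above, with the parameters taken from any `1 + s` different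
coordinates `j` of `x_n`, of subvarieties of tori of any dimension, for all `K` and `Γ`: for all but finitely
many `n` outside `E` the member whose parameters are these coordinates of `x_n` has no atypical intersections.

A normal orbit is the orbit of an integral vector under a finite family of integral affine maps along ANY
normal sequence of indices, where the family is wide: for all `q` prime to some `q₀` the maps are bijective
modulo `q`, and the vector can be moved to at least the proportion `κ > 0`, not depending on `q`, of all
vectors modulo `q`. The starting result `RandomOrbits` has ALMOST ALL words in generators of a thin group.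

Examples: (1) the vectors `(⌊b ^ n ξ_i⌋)_i` for ANY vector `ξ` of real numbers which is normal to the base
`b ≥ 2`: the parameters are read off from the expansions of the numbers `ξ_i`, one subvariety for every
digit; (2) the orbit of any vector `v ≠ 0` along ANY normal word in matrices which generate the special
linear group modulo all `q` prime to some `q₀` (generators of a thin group); (3) vectors of integers whose
digits are chosen from a restricted set of vectors.

Proof. A member is good if for each `l` some prime `p > P₀` divides `h_l(t)` exactly and does not divide `G_l(t)`,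
`G_l` coprime to `h_l`, and the vectors without such a prime are a pronull set (`Pool.Agent.N763.RO`, helper763,
and `Pool.Agent.N514.TH`, helper514). Normal orbits visit a pronull set only at times of density zero: modulo
`q` they are orbits along a normal sequence in a finite transitive system of permutations, and these are
equidistributed (engine `Pool.Agent.U125.NO`). There are countably many pairs `(h, G)`, and a diagonal argument
gives one set of times.
-/

set_option autoImplicit false

namespace Pool.Agent.Results.MP_c95b3b_ag.NormalSequences

open Filter Topology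
open Pool.Agent.R424.MP Pool.Agent.N763.RO
open Pool.Agent.N24.RW (clo crit)
open Pool.Agent.U125.NO (NormalOrbit Nul Examples examples)

/-- **Zilber's conjecture for families of subvarieties of tori along normal orbits.** `Nul E`: the set `E` of
natural numbers has natural density zero. -/
theorem result (ι : Type) [Fintype ι] [DecidableEq ι] :
    (∀ x : ℕ → ι → ℤ, NormalOrbit x → ∃ E : Set ℕ, Nul E ∧
      ∀ (s k N m M : ℕ) (j : Fin (s + 1) → ι), Function.Injective j →
      ∀ (κ : Type) [Finite κ] (supp : κ → Finset ((Fin k ⊕ Fin N) →₀ ℕ))
        (c : κ → ((Fin k ⊕ Fin N) →₀ ℕ) → Polynomial (MvPolynomial (Fin s) ℤ))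
        (h : Fin M → Polynomial (MvPolynomial (Fin s) ℤ)), (∀ l, (h l).natDegree = 1) →
      ∀ (e : Fin M → κ → ((Fin k ⊕ Fin N) →₀ ℕ) → ℕ),
        (∀ l q, ∀ β ∈ supp q, HasOrd (h l) (c q β) (e l q β)) → GenericT m supp e →
      ∀ (K : Subfield ℂ) [Countable K] (Γ : Finset ℂ), (∀ γ ∈ Γ, IsAlgebraic ℚ γ) →
        (∀ γ ∈ Γ, γ ∈ K) →
        {n : ℕ | n ∉ E ∧ ¬ NoAtypicalT (algebraMap (Algebra.adjoin ℤ (Γ : Set ℂ)) ℂ) K m
          (solT supp (fun q β => ((ev (x n (j 0)) (fun i => x n (j i.succ))
            (c q β) : ℤ) : ℂ)))}.Finite) ∧
    Examples ι := by
  refine ⟨fun x hx => ?_, examples _⟩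
  obtain ⟨E, hE, hfin⟩ := hx.avoids.diag (K := Dat ι × ℕ)
    (fun d v => (fun i => v (d.1.j i)) ∈ Bad d.1.h d.1.G d.2)
    (fun d => (clo (Fin (d.1.s + 1))).2.2.2.2 ι d.1.j d.1.j.injective _
      (bad_null crit clo d.1.h d.1.G d.1.deg d.1.cop d.2))
  refine ⟨E, hE, ?_⟩
  intro s k N m M j hj κ _ supp c h hdeg e he hgen K _ Γ hΓ hΓK
  obtain ⟨G, hG, hloc⟩ := localT supp c h e he hgen
  obtain ⟨P₀, hP₀⟩ := hloc K Γ hΓ hΓK
  have h1 : (⋃ l : Fin M, {n : ℕ | n ∉ E ∧ (fun i => x n (j i)) ∈ Bad (h l) (G l) P₀}).Finite := by
    refine Set.finite_iUnion fun l => ?_
    exact hfin ({ s := s, j := ⟨j, hj⟩, h := h l, G := G l, deg := hdeg l, cop := hG l }, P₀)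
  refine h1.subset ?_
  rintro n ⟨hn, hbad⟩
  by_contra hcon
  have hcon' : ∀ l, (fun i => x n (j i)) ∉ Bad (h l) (G l) P₀ := fun l hl =>
    hcon (Set.mem_iUnion.2 ⟨l, hn, hl⟩)
  have h2 := hP₀ (x n (j 0), fun i => x n (j i.succ)) (hit_of h G P₀ (fun i => x n (j i)) hcon')
  exact hbad h2

end Pool.Agent.Results.MP_c95b3b_ag.NormalSequences
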