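import Pool.Agent.N943.TS.Sys
import Pool.Agent.U163.ZP.Elim

/-!
# MP_c95b3b_ag: Zilber's conjecture on intersections with tori for sparse systems with several parameters

Let `A_1, …, A_r` be arbitrary finite nonempty sets of exponents in `ℤ^n` and let `V_b` be the
subvariety of the torus `(ℂ^×)^n` defined by the `r` Laurent polynomials `f_j = ∑_{α ∈ A_j} b_jα x ^ α`
(`sparseSystem A b`; every subvariety of the torus is of this form).

Let `W ⊆ 𝔸^ν` be an irreducible affine variety over `ℚ` of dimension at most `ρ` (the parameter space),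
given by its prime ideal `P`, and let `F_1, …, F_M` be polynomials over `ℤ` such that any `ρ + 1` of the
functions `F_l` on `W` are multiplicatively independent modulo constants. The parameters `t` are the
integral points of `W` at which the `F_l` have almost coprime values: the common prime divisors of two
different values `F_l (t)`, `F_l' (t)` are at most `b`; moreover for `l` in a given set `S` the value
`F_l (t)` is composed of primes `≤ b` (`Admissible`). We consider the systems with the coefficients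

`b_jα (t) = u_jα ∏_l F_l (t) ^ e_l(j, α)`

with arbitrary nonzero complex numbers `u_jα` and integral exponents `e_l(j, α)`, positive or negative.
The exponents are supposed to be in general position (`GeneralPosition`): for all choices of two
different elements `α_j`, `β_j` of `A_j`, for each `j`, and every integral vector `k ≠ 0` the number
`∑_j k_j (e_l(j, α_j) - e_l(j, β_j))` vanishes for at most `s` indices `l` outside of `S`, where
`s ∏_j |A_j| (|A_j| - 1) < L` and `M ≥ L + ρ`.

**Theorem.** Let `Γ` be a finitely generated subgroup of `ℂ^×`. There is a function `H` on `W`, not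
identically zero, such that for ALL exponents `e` in general position and for all admissible parameters
`t` with `H (t) ≠ 0`
* `V_{b(t)}` has no atypical intersection with a coset `η T` of an algebraic subgroup `T` by a point `η`
  whose coordinates are in the division hull of `Γ`: every irreducible subset of the intersection has
  dimension at most `n - r - codim T` (for `T = (ℂ^×)^n` all components have dimension `n - r`), and
* no point of `V_{b(t)}` lies on an algebraic subgroup of dimension less than `r`: the set `U` of the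
  problem is empty.
So the exceptional parameters are on one proper closed subset of `W`, which does not depend on `e`. If `W`
is a cone and the `F_l` are forms, then `H` can be taken to be a form.

In particular (second part) let `F_1, …, F_M` be nonconstant polynomials in `ρ` variables over `ℤ`,
pairwise coprime over `ℚ`. Then all exceptional `t ∈ ℤ^ρ` at which the values of the `F_l` are almost
coprime are on one hypersurface `H = 0` (a cone, if the `F_l` are forms).

The starting files have theorems for sparse systems with `S`-unit coefficients (almost all), for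
exponential families (`PowerSystems`), for sequences outside a set of density zero
(`OneNullSetSystems`), and a bound for the number of exceptional parameters in boxes for families with
several parameters (`ManyParameters`, `≤ C B^(s+ε)`); here the exceptional parameters are not Zariski
dense, on any variety of parameters.

Proof. The local criterion (`sparse_good`, from the starting files) needs `L` large primes at which the
exponents are in general position. Otherwise less than `L` of the values `F_l (t)` have a prime divisor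
`> max (D, b)`, so that `ρ + 1` of them are `S`-units for a fixed finite set of primes. An algebraic
relation between these `ρ + 1` functions on `W` with the smallest number of terms and the theorem on
`S`-unit equations show that `t` is on one of finitely many proper closed subsets.
-/

set_option autoImplicit false

namespace Pool.Agent.Results.MP_c95b3b_ag.SeveralParameterSystems

open MvPolynomial Pool.Agent.H173R3.ZT
open Pool.Agent.Results.MP_b7926e_nt.NoAtypical (coset idealOf dim mem_idealOf)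
open Pool.Agent.Results.MP_c95b3b_ag.SUnitSystems (Coeff sparseSystem U ext ext_mem sys_eq Typical
  U_empty)

/-- Every irreducible subset `W` of the intersection of the system of `r` equations with a coset `η H`
of an algebraic subgroup `H`, such that a power of every coordinate of `η` is in `Γ`, satisfies
`dim W ≤ n - r - codim H`, where `codim H = rank M`. -/
def NoAtypical {n r : ℕ} (Γ : Subgroup ℂˣ) (A : Fin r → Finset (Fin n → ℤ)) (b : Coeff A → ℂ) :
    Prop :=
  ∀ (M : Submodule ℤ (Fin n → ℤ)) (η : Fin n → ℂ),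
    (∀ l, ∃ m : ℕ, 0 < m ∧ ∃ γ ∈ Γ, η l ^ m = (γ : ℂ)) →
    ∀ W : Set (Fin n → ℂ), W ⊆ sparseSystem A b → W ⊆ coset M η → (idealOf W).IsPrime →
      dim W + (r : Cardinal) + (Module.finrank ℤ M : Cardinal) ≤ (n : Cardinal)

/-- Any `ρ + 1` of the functions `F l` are multiplicatively independent modulo constants on the variety
of the prime ideal `P`. -/
def MultIndependent {ν M : ℕ} (P : Ideal (MvPolynomial (Fin ν) ℚ)) (ρ : ℕ)
    (F : Fin M → MvPolynomial (Fin ν) ℤ) : Prop :=
  ∀ s : Finset (Fin M), s.card = ρ + 1 → ∀ a a' : Fin M → ℕ, (∀ l, l ∉ s → a l = 0 ∧ a' l = 0) →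
    a ≠ a' → ∀ α : ℚ, ∏ l, map (Int.castRingHom ℚ) (F l) ^ a l -
      C α * ∏ l, map (Int.castRingHom ℚ) (F l) ^ a' l ∉ P

/-- The admissible parameters `t`: integral points of the variety of `P` such that the values of
two different `F l` have no common prime divisor larger than `b`, and the values of the `F l` with
`l ∈ S` have no prime divisor larger than `b`. -/
def Admissible {ν M : ℕ} (P : Ideal (MvPolynomial (Fin ν) ℚ)) (F : Fin M → MvPolynomial (Fin ν) ℤ)
    (S : Finset (Fin M)) (b : ℕ) (t : Fin ν → ℤ) : Prop :=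
  (∀ f ∈ P, eval (fun i => (t i : ℚ)) f = 0) ∧
  (∀ l ∈ S, ∀ p : ℕ, p.Prime → (p : ℤ) ∣ eval t (F l) → p ≤ b) ∧
  ∀ l l', l ≠ l' → ∀ p : ℕ, p.Prime → (p : ℤ) ∣ eval t (F l) → (p : ℤ) ∣ eval t (F l') → p ≤ b

/-- For any two different elements `f j`, `g j` of `A_j`, for each `j`, and every `k ≠ 0` the number
`∑_j k_j (e_l(j, f j) - e_l(j, g j))` is zero for at most `s` indices `l` outside of `S`. -/
def GeneralPosition {n r M : ℕ} (A : Fin r → Finset (Fin n → ℤ)) (S : Finset (Fin M)) (s : ℕ)
    (e : Fin M → Coeff A → ℤ) : Prop :=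
  ∀ f g : (j : Fin r) → {α // α ∈ A j}, (∀ j, f j ≠ g j) → ∀ k : Fin r → ℤ, k ≠ 0 →
    {l | l ∉ S ∧ ∑ j, k j * (e l ⟨j, f j⟩ - e l ⟨j, g j⟩) = 0}.ncard ≤ s

/-- The coefficients `b_x (t) = u_x ∏_l F_l (t) ^ e_l(x)`. -/
noncomputable def coeffs {ι : Type} {ν M : ℕ} (u : ι → ℂ) (F : Fin M → MvPolynomial (Fin ν) ℤ)
    (e : Fin M → ι → ℤ) (t : Fin ν → ℤ) : ι → ℂ :=
  fun x => u x * ∏ l, ((eval t (F l) : ℤ) : ℂ) ^ e l x

/-- The case of given primes (proof of `OneNullSetSystems.sparse_good`, starting files). -/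
theorem sparse_good {n r : ℕ} (A : Fin r → Finset (Fin n → ℤ)) (hA : ∀ j, (A j).Nonempty)
    (a : Coeff A → ℂ) (ha : ∀ x, a x ≠ 0) (G₀ : Finset ℂˣ) :
    ∃ D : ℕ, ∀ L s : ℕ, (∏ j, (A j).card * ((A j).card - 1)) * s < L →
      ∀ q : Fin L → ℕ, (∀ i, (q i).Prime ∧ D < q i) →
      ∀ e : Fin L → Coeff A → ℤ, (∀ f g : (j : Fin r) → {α // α ∈ A j}, (∀ j, f j ≠ g j) → ∀ k : Fin r → ℤ, k ≠ 0 →
        {l | ∑ j, k j * (e l ⟨j, f j⟩ - e l ⟨j, g j⟩) = 0}.ncard ≤ s) → ∀ g : Coeff A → ℂ, (∀ x, g x ≠ 0) →
      (∀ i x, ∀ O : ValuationSubring ℂ, (q i : ℂ) ∈ O.nonunits →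
        O.valuation (g x) = O.valuation (q i : ℂ) ^ (e i x)) →
      NoAtypical (Subgroup.closure (G₀ : Set ℂˣ)) A (fun x => a x * g x) := by
  classical
  set S : Finset ℂ := (Finset.univ.image a) ∪ G₀.image (fun c : ℂˣ => (c : ℂ)) with hS
  obtain ⟨D, hD⟩ := Pool.Agent.W466.ZC.exists_val (ι := {u // u ∈ S ∪ S.image fun u => u⁻¹})
    (fun u => (u : ℂ))
  refine ⟨D, fun L s hL q hq e he g hg0 hg M η hη W hWV hWT hW => ?_⟩
  by_contra hcon
  rw [not_le] at hcon
  choose O hO1 hO2 using fun i : Fin L => hD (q i) (hq i).1 (hq i).2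
  have hO : ∀ i, (O i).valuation (q i : ℂ) < 1 := fun i => by
    have := hO1 i
    rwa [ValuationSubring.mem_nonunits_iff] at this
  have hsO : ∀ i, ∀ u ∈ S, u ≠ 0 → (O i).valuation u = 1 := by
    intro i u hu hu0
    have h1 : u ∈ O i := hO2 i ⟨u, Finset.mem_union_left _ hu⟩
    have h2 : u⁻¹ ∈ O i := hO2 i ⟨u⁻¹, Finset.mem_union_right _ (Finset.mem_image_of_mem _ hu)⟩
    have h3 : (O i).valuation u ≤ 1 := ((O i).valuation_le_one_iff u).2 h1
    have h4 : (O i).valuation u⁻¹ ≤ 1 := ((O i).valuation_le_one_iff _).2 h2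
    refine le_antisymm h3 ?_
    have h5 : (O i).valuation u * (O i).valuation u⁻¹ = 1 := by
      rw [← map_mul, mul_inv_cancel₀ hu0, map_one]
    calc (1 : _) = (O i).valuation u * (O i).valuation u⁻¹ := h5.symm
      _ ≤ (O i).valuation u * 1 := by gcongr
      _ = (O i).valuation u := mul_one _
  have hη0 : ∀ l, η l ≠ 0 := by
    intro l h0
    obtain ⟨m, hm, γ, -, hγ⟩ := hη l
    rw [h0, zero_pow hm.ne'] at hγ
    exact γ.ne_zero hγ.symm
  have hηO : ∀ i l, (O i).valuation (η l) = 1 := by
    intro i l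
    obtain ⟨m, hm, γ, hγΓ, hγ⟩ := hη l
    have h1 : (O i).valuation (γ : ℂ) = 1 := by
      refine val_closure G₀ (fun u hu => hsO i _ ?_ u.ne_zero) γ hγΓ
      rw [hS]
      exact Finset.mem_union_right _ (Finset.mem_image_of_mem _ hu)
    have h2 := congrArg (O i).valuation hγ
    rw [map_pow, h1] at h2
    exact (pow_eq_one_iff_of_nonneg zero_le hm.ne').1 h2
  have haO : ∀ i x, (O i).valuation (a x) = 1 := fun i x => hsO i _
    (by rw [hS]; exact Finset.mem_union_left _ (Finset.mem_image_of_mem _ (Finset.mem_univ x)))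
    (ha x)
  let ex : Fin L → Fin r → (Fin n → ℤ) → ℤ := fun i j α =>
    if h : α ∈ A j then e i ⟨j, α, h⟩ else 0
  have hex : ∀ i j α (h : α ∈ A j), ex i j α = e i ⟨j, α, h⟩ := fun i j α h => dif_pos h
  obtain ⟨σ, hσ, k, hk, hlt⟩ := Pool.Agent.N943.TS.sys_val A hA L s
    (by rwa [Pool.Agent.TH526.ZT.card_pairs]) O (fun i => (q i : ℂ)) hO
    (fun i => Nat.cast_ne_zero.2 (hq i).1.ne_zero) (ext A fun x => a x * g x)
    (fun j α hα => by rw [ext_mem A _ j α hα]; exact mul_ne_zero (ha _) (hg0 _))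
    ex
    (fun i j α hα => by
      rw [ext_mem A _ j α hα, map_mul, haO, one_mul, hex i j α hα]
      exact hg i _ (O i) (hO1 i))
    M η hη0 hηO W (by rw [sys_eq]; exact hWV) hWT hW hcon
  have hσA : ∀ j, (σ j).1 ∈ A j ∧ (σ j).2 ∈ A j ∧ (σ j).1 ≠ (σ j).2 := fun j => by
    have := Fintype.mem_piFinset.1 hσ j
    rwa [Finset.mem_offDiag] at this
  have h1 := he (fun j => ⟨(σ j).1, (hσA j).1⟩) (fun j => ⟨(σ j).2, (hσA j).2.1⟩)
    (fun j h => (hσA j).2.2 (congrArg Subtype.val h)) k hk
  have h2 : {i | ∑ j, k j * (ex i j (σ j).1 - ex i j (σ j).2) = 0} =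
      {l | ∑ j, k j * (e l ⟨j, (σ j).1, (hσA j).1⟩ - e l ⟨j, (σ j).2, (hσA j).2.1⟩) = 0} := by
    ext l
    simp only [Set.mem_ofPred_eq]
    rw [Finset.sum_congr rfl fun j _ => by
      rw [hex l j _ (hσA j).1, hex l j _ (hσA j).2.1]]
  rw [h2] at hlt
  exact absurd h1 (not_le.2 hlt)

theorem typical_of_noAtypical {n r : ℕ} {Γ : Subgroup ℂˣ} {A : Fin r → Finset (Fin n → ℤ)}
    {b : Coeff A → ℂ} (h : NoAtypical Γ A b) : Typical A b := by
  intro M η hη W hWV hWT hW
  exact h M η (fun l => by
    obtain ⟨m, hm, h1⟩ := hη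
    exact ⟨m, hm, 1, Subgroup.one_mem _, by rw [h1 l, Units.val_one]⟩) W hWV hWT hW

/-- **Zilber's conjecture for sparse systems with several parameters.** -/
theorem result (n r : ℕ) (A : Fin r → Finset (Fin n → ℤ)) (hA : ∀ j, (A j).Nonempty)
    (u : Coeff A → ℂ) (hu : ∀ x, u x ≠ 0) (Γ : Subgroup ℂˣ) (hΓ : Γ.FG)
    (L s : ℕ) (hLs : (∏ j, (A j).card * ((A j).card - 1)) * s < L) (M ρ : ℕ) (hM : L + ρ ≤ M)
    (S : Finset (Fin M)) (b : ℕ) :
    (∀ (ν : ℕ) (P : Ideal (MvPolynomial (Fin ν) ℚ)), P.IsPrime →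
      Algebra.trdeg ℚ (MvPolynomial (Fin ν) ℚ ⧸ P) ≤ ρ →
      ∀ F : Fin M → MvPolynomial (Fin ν) ℤ, MultIndependent P ρ F →
      ∃ H : MvPolynomial (Fin ν) ℚ, H ∉ P ∧
        ((∀ f ∈ P, ∀ j, homogeneousComponent j f ∈ P) → (∀ l, ∃ j, (F l).IsHomogeneous j) →
          ∃ j, H.IsHomogeneous j) ∧
        ∀ e : Fin M → Coeff A → ℤ, GeneralPosition A S s e → ∀ t, Admissible P F S b t →
          eval (fun i => (t i : ℚ)) H ≠ 0 →
          NoAtypical Γ A (coeffs u F e t) ∧ U A (coeffs u F e t) = ∅) ∧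
    ∀ F : Fin M → MvPolynomial (Fin ρ) ℤ, (∀ l, 0 < (F l).totalDegree) →
      (∀ l l', l ≠ l' → IsRelPrime (map (Int.castRingHom ℚ) (F l)) (map (Int.castRingHom ℚ) (F l'))) →
      ∃ H : MvPolynomial (Fin ρ) ℚ, H ≠ 0 ∧
        ((∀ l, ∃ j, (F l).IsHomogeneous j) → ∃ j, H.IsHomogeneous j) ∧
        ∀ e : Fin M → Coeff A → ℤ, GeneralPosition A S s e → ∀ t, Admissible ⊥ F S b t →
          eval (fun i => (t i : ℚ)) H ≠ 0 →
          NoAtypical Γ A (coeffs u F e t) ∧ U A (coeffs u F e t) = ∅ := by
  classical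
  obtain ⟨G₀, hG₀⟩ := hΓ
  obtain ⟨D, hD⟩ := sparse_good A hA u hu G₀
  have hLpos : 0 < L := lt_of_le_of_lt (Nat.zero_le _) hLs
  have main : ∀ (ν : ℕ) (P : Ideal (MvPolynomial (Fin ν) ℚ)), P.IsPrime →
      Algebra.trdeg ℚ (MvPolynomial (Fin ν) ℚ ⧸ P) ≤ ρ →
      ∀ F : Fin M → MvPolynomial (Fin ν) ℤ, MultIndependent P ρ F →
      ∃ H : MvPolynomial (Fin ν) ℚ, H ∉ P ∧
        ((∀ f ∈ P, ∀ j, homogeneousComponent j f ∈ P) → (∀ l, ∃ j, (F l).IsHomogeneous j) →
          ∃ j, H.IsHomogeneous j) ∧
        ∀ e : Fin M → Coeff A → ℤ, GeneralPosition A S s e → ∀ t, Admissible P F S b t →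
          eval (fun i => (t i : ℚ)) H ≠ 0 →
          NoAtypical Γ A (coeffs u F e t) ∧ U A (coeffs u F e t) = ∅ := by
    intro ν P hP hr F hF
    obtain ⟨H, hH, hhom, hcore⟩ := Pool.Agent.U163.ZP.core P L ρ hLpos hM hr F
      (fun s hs a a' ha ha' hne α => hF s hs a a'
        (fun l hl => ⟨Finsupp.notMem_support_iff.1 fun h => hl (ha h),
          Finsupp.notMem_support_iff.1 fun h => hl (ha' h)⟩)
        (fun h => hne (DFunLike.coe_injective h)) α) S D b
    refine ⟨H, hH, hhom, fun e he t ht htH => ?_⟩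
    obtain ⟨ht0, j, hj, hjU, p, hp⟩ := hcore t ht.1 ht.2.1 ht.2.2 htH
    -- the exponents of the primes
    set v : Fin L → ℕ := fun a => (eval t (F (j a))).natAbs.factorization (p a) with hv
    have hvpos : ∀ a, 0 < v a := fun a =>
      (hp a).1.factorization_pos_of_dvd (Int.natAbs_ne_zero.2 (ht0 _))
        (Int.natCast_dvd.1 (hp a).2.2.1)
    have hunit : ∀ (a : Fin L) (O : ValuationSubring ℂ), (p a : ℂ) ∈ O.nonunits →
        ∀ k : ℤ, ¬ (p a : ℤ) ∣ k → O.valuation (k : ℂ) = 1 := by
      intro a O hO k hk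
      rw [ValuationSubring.mem_nonunits_iff] at hO
      have h4 : IsCoprime k ((p a : ℕ) : ℤ) :=
        (((Nat.prime_iff_prime_int.1 (hp a).1).coprime_iff_not_dvd).2 hk).symm
      exact Pool.Agent.H173R3.ZT.val_int_eq_one O hO h4
    have hval : ∀ (a : Fin L) (O : ValuationSubring ℂ), (p a : ℂ) ∈ O.nonunits →
        O.valuation ((eval t (F (j a)) : ℤ) : ℂ) = O.valuation (p a : ℂ) ^ v a := by
      intro a O hO
      have h0 : (eval t (F (j a))).natAbs ≠ 0 := Int.natAbs_ne_zero.2 (ht0 _)
      have h1 := Nat.ordProj_mul_ordCompl_eq_self (eval t (F (j a))).natAbs (p a)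
      have h2 : ¬ p a ∣ (eval t (F (j a))).natAbs / p a ^ v a :=
        Nat.not_dvd_ordCompl (hp a).1 h0
      set k := (eval t (F (j a))).natAbs / p a ^ v a with hk
      have h3 : ¬ (p a : ℤ) ∣ (k : ℤ) := fun h => h2 (Int.natCast_dvd_natCast.1 h)
      have h4 : (((eval t (F (j a))).natAbs : ℕ) : ℂ) = (p a : ℂ) ^ v a * ((k : ℤ) : ℂ) := by
        rw [← h1]
        push_cast
        rfl
      have h5 : O.valuation ((eval t (F (j a)) : ℤ) : ℂ) =
          O.valuation (((eval t (F (j a))).natAbs : ℕ) : ℂ) := by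
        rcases Int.natAbs_eq (eval t (F (j a))) with h6 | h6
        · conv_lhs => rw [h6]
          rw [Int.cast_natCast]
        · conv_lhs => rw [h6]
          rw [Int.cast_neg, Int.cast_natCast, Valuation.map_neg]
      rw [h5, h4, map_mul, map_pow, hunit a O hO _ h3, mul_one]
    have hne : ∀ l, ((eval t (F l) : ℤ) : ℂ) ≠ 0 := fun l => by exact_mod_cast ht0 l
    have hgood : NoAtypical (Subgroup.closure (G₀ : Set ℂˣ)) A (coeffs u F e t) := by
      refine hD L s hLs p (fun a => ⟨(hp a).1, (hp a).2.1⟩) (fun a x => (v a : ℤ) * e (j a) x) ?_ _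
        (fun x => Finset.prod_ne_zero_iff.2 fun l _ => zpow_ne_zero _ (hne l)) (fun a x O hO => ?_)
      · intro f g hfg k hk
        refine le_trans ?_ (he f g hfg k hk)
        refine Set.ncard_le_ncard_of_injOn j ?_ (fun a _ a' _ h => hj h) (Set.toFinite _)
        intro a ha
        rw [Set.mem_ofPred_eq] at ha
        refine ⟨hjU a, ?_⟩
        have h1 : (v a : ℤ) * ∑ i, k i * (e (j a) ⟨i, f i⟩ - e (j a) ⟨i, g i⟩) = 0 := by
          rw [← ha, Finset.mul_sum]
          exact Finset.sum_congr rfl fun i _ => by ring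
        rcases mul_eq_zero.1 h1 with h2 | h2
        · have := hvpos a
          have h3 : v a = 0 := by exact_mod_cast h2
          omega
        · exact h2
      · rw [map_prod, Finset.prod_eq_single (j a)]
        · rw [map_zpow₀, hval a O hO, ← zpow_natCast, ← zpow_mul]
        · intro l _ hl
          rw [map_zpow₀, hunit a O hO _ ((hp a).2.2.2 l hl), one_zpow]
        · intro hi
          exact absurd (Finset.mem_univ _) hi
    rw [hG₀] at hgood
    exact ⟨hgood, U_empty A _ (typical_of_noAtypical hgood)⟩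
  refine ⟨main, fun F hF1 hF2 => ?_⟩
  obtain ⟨H, hH, hhom, h⟩ := main ρ ⊥ Ideal.isPrime_bot (Pool.Agent.U163.ZP.trdeg_bot ρ) F (by
    intro s _ a a' _ hne α
    exact Pool.Agent.U163.ZP.not_mem_bot (fun l => Pool.Agent.U163.ZP.toQ_ne_zero (hF1 l))
      (fun l => Pool.Agent.U163.ZP.not_isUnit_toQ (hF1 l)) hF2 hne α)
  refine ⟨H, fun h0 => hH (Ideal.mem_bot.2 h0), fun h1 => hhom ?_ h1, h⟩
  intro f hf j
  rw [Ideal.mem_bot] at hf ⊢
  rw [hf, map_zero]

end Pool.Agent.Results.MP_c95b3b_ag.SeveralParameterSystems
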